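import Pool.Agent.H9.UQL.Defs

/-!
# UQL, module BL3: Cheeger's inequality gives a block
-/

set_option autoImplicit false

namespace Pool.Agent.H94.UQL

open Pool.Agent.H9.UQL Finset
open scoped Classical

section coarea

variable {Y : Type} [Fintype Y] [MetricSpace Y]

/-- Co-area argument. -/
lemma coarea {S ε : ℝ} {w : Y → Y → ℝ} {m : Y → ℝ}
    (hw : ∀ x y, 0 ≤ w x y) (hs : ∀ x y, w x y = w y x)
    (hE : ∀ E : Finset Y, E.Nonempty → (∀ x ∈ E, ∀ y ∈ E, dist x y ≤ S) →
        ε * ∑ x ∈ E, m x < ∑ x ∈ E, ∑ y ∈ Finset.univ \ E, w x y)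
    (n : ℕ) : ∀ g : Y → ℝ, (∀ x, 0 ≤ g x) → (univ.filter (fun x => g x ≠ 0)).card ≤ n →
      (∀ x y, g x ≠ 0 → g y ≠ 0 → dist x y ≤ S) →
      ε * ∑ x, m x * g x ≤ (1 / 2) * ∑ x, ∑ y, w x y * |g x - g y| := by
  induction n with
  | zero =>
    intro g _ hc _
    have h0 : ∀ x, g x = 0 := by
      intro x
      by_contra h
      have : x ∈ univ.filter (fun x => g x ≠ 0) := by simp [h]
      rw [Nat.le_zero, Finset.card_eq_zero] at hc
      rw [hc] at this
      simp at this
    simp [h0]
  | succ n ih =>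
    intro g hg hc hd
    set E := univ.filter (fun x => g x ≠ 0) with hEdef
    rcases E.eq_empty_or_nonempty with he | hne
    · exact ih g hg (by rw [← hEdef, he]; simp) hd
    obtain ⟨x0, hx0, hmin⟩ := Finset.exists_min_image E g hne
    set a := g x0 with ha
    have ha0 : 0 < a := lt_of_le_of_ne (hg x0) (Ne.symm (by simpa [hEdef] using hx0))
    have hmem : ∀ x, x ∈ E ↔ g x ≠ 0 := by intro x; simp [hEdef]
    set g' : Y → ℝ := fun x => if x ∈ E then g x - a else 0 with hg'
    have hg'0 : ∀ x, 0 ≤ g' x := by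
      intro x; simp only [hg']
      split_ifs with h
      · have := hmin x h; linarith
      · exact le_rfl
    have hsub : ∀ x, g' x ≠ 0 → g x ≠ 0 := by
      intro x hx hx'
      apply hx
      simp only [hg']
      rw [if_neg]
      rw [hmem]; simpa using hx'
    have hcard : (univ.filter (fun x => g' x ≠ 0)).card ≤ n := by
      have h1 : univ.filter (fun x => g' x ≠ 0) ⊆ E.erase x0 := by
        intro x hx
        simp only [mem_filter, mem_univ, true_and] at hx
        rw [mem_erase]
        refine ⟨?_, (hmem x).2 (hsub x hx)⟩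
        rintro rfl
        apply hx
        simp only [hg']
        rw [if_pos hx0, ← ha, sub_self]
      have h2 := Finset.card_le_card h1
      rw [Finset.card_erase_of_mem hx0] at h2
      omega
    have hi := ih g' hg'0 hcard (fun x y hx hy => hd x y (hsub x hx) (hsub y hy))
    have hEE := hE E hne (fun x hx y hy => hd x y ((hmem x).1 hx) ((hmem y).1 hy))
    -- split the sums
    have h1 : ∑ x, m x * g x = a * ∑ x ∈ E, m x + ∑ x, m x * g' x := by
      have : ∀ x, m x * g x = (if x ∈ E then a * m x else 0) + m x * g' x := by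
        intro x; simp only [hg']
        split_ifs with h
        · ring
        · have : g x = 0 := by by_contra h'; exact h ((hmem x).2 h')
          rw [this]; ring
      rw [Finset.sum_congr rfl fun x _ => this x, Finset.sum_add_distrib, Finset.mul_sum]
      congr 1
      rw [← Finset.sum_filter]
      congr 1
      ext x; simp
    have h2 : ∀ x y, w x y * |g x - g y| =
        (a * ((if x ∈ E ∧ y ∉ E then w x y else 0) + (if y ∈ E ∧ x ∉ E then w x y else 0))) +
          w x y * |g' x - g' y| := by
      intro x y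
      have hz : ∀ z, z ∉ E → g z = 0 := fun z hz => by
        by_contra h'; exact hz ((hmem z).2 h')
      by_cases hx : x ∈ E <;> by_cases hy : y ∈ E
      · simp only [hg', hx, hy, if_true, not_true, and_false, if_false]
        rw [show g x - a - (g y - a) = g x - g y by ring]; ring
      · have h3 := hmin x hx
        simp only [hg', hx, hy, if_true, not_false_iff, and_self, if_false, false_and, sub_zero,
          hz y hy]
        rw [abs_of_nonneg (hg x), abs_of_nonneg (by linarith : 0 ≤ g x - a)]
        ring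
      · have h3 := hmin y hy
        simp only [hg', hx, hy, if_true, not_false_iff, and_self, if_false, false_and, zero_sub,
          hz x hx, abs_neg]
        rw [abs_of_nonneg (hg y), abs_of_nonneg (by linarith : 0 ≤ g y - a)]
        ring
      · simp [hg', hx, hy, hz x hx, hz y hy]
    have h3 : ∑ x, ∑ y, w x y * |g x - g y| =
        2 * a * (∑ x ∈ E, ∑ y ∈ Finset.univ \ E, w x y) + ∑ x, ∑ y, w x y * |g' x - g' y| := by
      simp_rw [h2]
      simp_rw [Finset.sum_add_distrib]
      congr 1
      simp_rw [← Finset.mul_sum]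
      have h4 : ∑ x, ∑ y, (if x ∈ E ∧ y ∉ E then w x y else 0) =
          ∑ x ∈ E, ∑ y ∈ Finset.univ \ E, w x y := by
        have : ∀ x, ∑ y, (if x ∈ E ∧ y ∉ E then w x y else 0) =
            if x ∈ E then ∑ y ∈ Finset.univ \ E, w x y else 0 := by
          intro x
          split_ifs with hx
          · simp only [hx, true_and]
            rw [← Finset.sum_filter]
            congr 1
            ext y; simp
          · simp [hx]
        simp_rw [this]
        rw [← Finset.sum_filter]
        congr 1
        ext x; simp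
      have h5 : ∑ x, ∑ y, (if y ∈ E ∧ x ∉ E then w x y else 0) =
          ∑ x ∈ E, ∑ y ∈ Finset.univ \ E, w x y := by
        rw [Finset.sum_comm, ← h4]
        refine Finset.sum_congr rfl fun x _ => Finset.sum_congr rfl fun y _ => ?_
        rw [hs y x]
      simp_rw [Finset.sum_add_distrib]
      rw [h4, h5]; ring
    rw [h1, h3]
    have h6 : a * (ε * ∑ x ∈ E, m x) ≤ a * ∑ x ∈ E, ∑ y ∈ Finset.univ \ E, w x y :=
      mul_le_mul_of_nonneg_left hEE.le ha0.le
    nlinarith [hi, h6]

end coarea

theorem bl3 : BL3Stmt := by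
  intro Y _ _ _ R0 S ε w m hR0 hS hε hε1 hw hs hsupp hm hE
  have hmpos : ∀ x, 0 < m x := by
    intro x
    have h1 := hE {x} ⟨x, by simp⟩ (by
      intro a ha b hb
      rw [mem_singleton] at ha hb
      rw [ha, hb, dist_self]; exact hS)
    simp only [sum_singleton] at h1
    have h2 : ∑ y ∈ univ \ {x}, w x y ≤ ∑ y, w x y :=
      sum_le_sum_of_subset_of_nonneg (sdiff_subset) fun y _ _ => hw x y
    have h3 : 0 ≤ m x := le_trans (sum_nonneg fun y _ => hw x y) (hm x)
    rcases eq_or_lt_of_le h3 with h | h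
    · rw [← h, mul_zero] at h1
      have := hm x
      linarith
    · exact h
  set r : Y → ℝ := fun x => Real.sqrt (m x) with hr
  have hrpos : ∀ x, 0 < r x := fun x => Real.sqrt_pos.2 (hmpos x)
  have hr2 : ∀ x, r x ^ 2 = m x := fun x => Real.sq_sqrt (hmpos x).le
  set T : Matrix Y Y ℝ := fun x y =>
    if x = y then 1 - (∑ z ∈ univ \ {x}, w x z) / (2 * m x) else w x y / (2 * (r x * r y)) with hT
  set M : ℝ := ∑ x, m x with hM
  have hMpos : 0 < M := sum_pos (fun x _ => hmpos x) univ_nonempty
  -- the quadratic form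
  have hform : ∀ φ : Y → ℝ, ∑ z, ∑ v, φ z * T z v * φ v =
      ∑ z, φ z ^ 2 - (1 / 4) * ∑ z, ∑ v, w z v * (φ z / r z - φ v / r v) ^ 2 := by
    intro φ
    set f : Y → ℝ := fun x => φ x / r x with hf
    have hφ : ∀ x, φ x = f x * r x := fun x => by
      simp only [hf]; have := (hrpos x).ne'; field_simp
    have h1 : ∀ z, ∑ v, φ z * T z v * φ v =
        φ z ^ 2 - (1 / 2) * ∑ v, w z v * f z ^ 2 + (1 / 2) * ∑ v, w z v * (f z * f v) := by
      intro z
      rw [← Finset.add_sum_erase _ _ (mem_univ z)]
      have h2 : ∑ v ∈ univ.erase z, φ z * T z v * φ v =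
          (1 / 2) * ∑ v ∈ univ.erase z, w z v * (f z * f v) := by
        rw [mul_sum]
        refine sum_congr rfl fun v hv => ?_
        have hne : z ≠ v := (ne_of_mem_erase hv).symm
        simp only [hT]
        rw [if_neg hne, hφ z, hφ v]
        have h3 := (hrpos z).ne'
        have h4 := (hrpos v).ne'
        field_simp
      rw [h2]
      have h3 : φ z * T z z * φ z = φ z ^ 2 - (1 / 2) * ∑ v ∈ univ.erase z, w z v * f z ^ 2 := by
        simp only [hT, if_true]
        rw [← sum_mul, hφ z, ← hr2 z]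
        have h4 : univ \ {z} = univ.erase z := by ext; simp
        rw [h4]
        have h3 := (hrpos z).ne'
        field_simp
      rw [h3]
      rw [← Finset.add_sum_erase (a := z) univ (fun v => w z v * f z ^ 2) (mem_univ z),
        ← Finset.add_sum_erase (a := z) univ (fun v => w z v * (f z * f v)) (mem_univ z)]
      ring
    rw [Finset.sum_congr rfl fun z _ => h1 z, Finset.sum_add_distrib, Finset.sum_sub_distrib,
      ← Finset.mul_sum, ← Finset.mul_sum]
    have h5 : ∀ z v, w z v * (f z - f v) ^ 2 =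
        w z v * f z ^ 2 - 2 * (w z v * (f z * f v)) + w v z * f v ^ 2 := by
      intro z v; rw [hs v z]; ring
    have h6 : ∑ z, ∑ v, w z v * (f z - f v) ^ 2 =
        2 * (∑ z, ∑ v, w z v * f z ^ 2) - 2 * ∑ z, ∑ v, w z v * (f z * f v) := by
      simp_rw [h5, Finset.sum_add_distrib, Finset.sum_sub_distrib, ← Finset.mul_sum]
      rw [Finset.sum_comm (f := fun z v => w v z * f v ^ 2)]
      ring
    rw [h6]; ring
  have hup : ∀ f : Y → ℝ, ∑ z, ∑ v, w z v * (f z ^ 2 + f v ^ 2) ≤ 2 * ∑ z, m z * f z ^ 2 := by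
    intro f
    have h1 : ∑ z, ∑ v, w z v * (f z ^ 2 + f v ^ 2) = 2 * ∑ z, (∑ v, w z v) * f z ^ 2 := by
      simp_rw [mul_add, Finset.sum_add_distrib]
      rw [Finset.sum_comm (f := fun z v => w z v * f v ^ 2)]
      have : ∀ z, ∑ x, w x z * f z ^ 2 = ∑ v, w z v * f z ^ 2 := fun z =>
        sum_congr rfl fun v _ => by rw [hs v z]
      simp_rw [this, Finset.sum_mul]
      ring
    rw [h1]
    refine mul_le_mul_of_nonneg_left (sum_le_sum fun z _ => ?_) (by norm_num)
    exact mul_le_mul_of_nonneg_right (hm z) (sq_nonneg _)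
  have hmf : ∀ φ : Y → ℝ, ∑ z, m z * (φ z / r z) ^ 2 = ∑ z, φ z ^ 2 := by
    intro φ
    refine sum_congr rfl fun z _ => ?_
    rw [← hr2 z]
    have := (hrpos z).ne'
    field_simp
  refine ⟨T, fun x => r x / Real.sqrt M, ?_, ?_, ?_, ?_, ?_, ?_, ?_⟩
  · refine Matrix.IsSymm.ext fun x y => ?_
    by_cases h : x = y
    · subst h; rfl
    · simp only [hT]
      rw [if_neg h, if_neg (Ne.symm h), hs y x, mul_comm (r y) (r x)]
  · intro z v hz
    by_cases h : z = v
    · subst h; rw [dist_self]; exact hR0
    · apply hsupp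
      intro h0
      apply hz
      simp only [hT]
      rw [if_neg h, h0, zero_div]
  · intro φ
    rw [hform φ]
    set f : Y → ℝ := fun x => φ x / r x with hf
    have h1 : ∑ z, ∑ v, w z v * (f z - f v) ^ 2 ≤ 2 * ∑ z, ∑ v, w z v * (f z ^ 2 + f v ^ 2) := by
      rw [Finset.mul_sum]
      refine sum_le_sum fun z _ => ?_
      rw [Finset.mul_sum]
      refine sum_le_sum fun v _ => ?_
      have h2 : (f z - f v) ^ 2 ≤ 2 * (f z ^ 2 + f v ^ 2) := by nlinarith [sq_nonneg (f z + f v)]
      nlinarith [mul_le_mul_of_nonneg_left h2 (hw z v)]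
    have h2 := hup f
    have h3 := hmf φ
    have h4 : 0 ≤ ∑ z, ∑ v, w z v * (f z - f v) ^ 2 :=
      sum_nonneg fun z _ => sum_nonneg fun v _ => mul_nonneg (hw z v) (sq_nonneg _)
    constructor
    · nlinarith
    · linarith
  · intro z
    exact div_nonneg (hrpos z).le (Real.sqrt_nonneg _)
  · simp_rw [div_pow]
    rw [← Finset.sum_div, Real.sq_sqrt hMpos.le]
    simp_rw [hr2]
    exact div_self hMpos.ne'
  · intro z
    have h1 : ∑ v, T z v * r v = r z := by
      rw [← Finset.add_sum_erase _ _ (mem_univ z)]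
      have h2 : ∑ v ∈ univ.erase z, T z v * r v = ∑ v ∈ univ.erase z, w z v / (2 * r z) := by
        refine sum_congr rfl fun v hv => ?_
        have hne : z ≠ v := (ne_of_mem_erase hv).symm
        simp only [hT]
        rw [if_neg hne]
        have h3 := (hrpos z).ne'
        have h4 := (hrpos v).ne'
        field_simp
      rw [h2]
      simp only [hT, if_true]
      have h4 : univ \ {z} = univ.erase z := by ext; simp
      rw [h4, ← Finset.sum_div, ← hr2 z]
      have h3 := (hrpos z).ne'
      field_simp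
      ring
    have h2 : ∑ v, T z v * (r v / Real.sqrt M) = (∑ v, T z v * r v) / Real.sqrt M := by
      rw [Finset.sum_div]
      exact sum_congr rfl fun v _ => by ring
    rw [h2, h1]
  · intro φ hφ
    rw [hform φ]
    set f : Y → ℝ := fun x => φ x / r x with hf
    have h3 := hmf φ
    have hco := coarea (m := m) hw hs hE (Fintype.card Y) (fun x => f x ^ 2) (fun x => sq_nonneg _)
      (card_le_univ _) (by
        intro x y hx hy
        refine hφ x y ?_ ?_
        · intro h; apply hx; simp [hf, h]
        · intro h; apply hy; simp [hf, h])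
    set P : ℝ := ∑ z, m z * f z ^ 2 with hP
    set Q : ℝ := ∑ z, ∑ v, w z v * (f z - f v) ^ 2 with hQ
    have hQ0 : 0 ≤ Q := sum_nonneg fun z _ => sum_nonneg fun v _ => mul_nonneg (hw z v) (sq_nonneg _)
    have hP0 : 0 ≤ P := sum_nonneg fun z _ => mul_nonneg (hmpos z).le (sq_nonneg _)
    -- Cauchy-Schwarz
    have hcs : (∑ z, ∑ v, w z v * |f z ^ 2 - f v ^ 2|) ^ 2 ≤ Q * (4 * P) := by
      have h5 : ∑ z, ∑ v, w z v * |f z ^ 2 - f v ^ 2| =
          ∑ p : Y × Y, (Real.sqrt (w p.1 p.2) * |f p.1 - f p.2|) *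
            (Real.sqrt (w p.1 p.2) * |f p.1 + f p.2|) := by
        rw [Fintype.sum_prod_type]
        refine sum_congr rfl fun z _ => sum_congr rfl fun v _ => ?_
        have : f z ^ 2 - f v ^ 2 = (f z - f v) * (f z + f v) := by ring
        rw [this, abs_mul]
        calc w z v * (|f z - f v| * |f z + f v|) =
            (Real.sqrt (w z v) * Real.sqrt (w z v)) * (|f z - f v| * |f z + f v|) := by
              rw [Real.mul_self_sqrt (hw z v)]
          _ = _ := by ring
      rw [h5]
      refine (Finset.sum_mul_sq_le_sq_mul_sq _ _ _).trans ?_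
      have h6 : ∑ p : Y × Y, (Real.sqrt (w p.1 p.2) * |f p.1 - f p.2|) ^ 2 = Q := by
        rw [Fintype.sum_prod_type]
        refine sum_congr rfl fun z _ => sum_congr rfl fun v _ => ?_
        rw [mul_pow, Real.sq_sqrt (hw z v), sq_abs]
      have h7 : ∑ p : Y × Y, (Real.sqrt (w p.1 p.2) * |f p.1 + f p.2|) ^ 2 ≤ 4 * P := by
        rw [Fintype.sum_prod_type]
        have h8 := hup f
        refine le_trans (b := 2 * ∑ z, ∑ v, w z v * (f z ^ 2 + f v ^ 2)) ?_ (by linarith)
        rw [Finset.mul_sum]
        refine sum_le_sum fun z _ => ?_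
        rw [Finset.mul_sum]
        refine sum_le_sum fun v _ => ?_
        rw [mul_pow, Real.sq_sqrt (hw z v), sq_abs]
        have h2 : (f z + f v) ^ 2 ≤ 2 * (f z ^ 2 + f v ^ 2) := by nlinarith [sq_nonneg (f z - f v)]
        nlinarith [mul_le_mul_of_nonneg_left h2 (hw z v)]
      rw [h6]
      exact mul_le_mul_of_nonneg_left h7 hQ0
    set L : ℝ := ∑ z, ∑ v, w z v * |f z ^ 2 - f v ^ 2| with hL
    have h8 : 2 * ε * P ≤ L := by
      have : ε * P ≤ (1 / 2) * L := hco
      linarith
    have h9 : (2 * ε * P) ^ 2 ≤ Q * (4 * P) := by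
      refine le_trans ?_ hcs
      exact pow_le_pow_left₀ (by positivity) h8 2
    have h10 : ε ^ 2 * P ≤ Q := by
      rcases eq_or_lt_of_le hP0 with h | h
      · rw [← h]; simpa using hQ0
      · have : ε ^ 2 * P * (4 * P) ≤ Q * (4 * P) := by nlinarith
        exact le_of_mul_le_mul_right this (by positivity)
    rw [← h3]
    linarith

end Pool.Agent.H94.UQL
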