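import Pool.Agent.H9.UQL.Defs

/-!
# UQL, module BLOCK: gluing of BL1, BL2, BL3
-/

set_option autoImplicit false

namespace Pool.Agent.H94.UQL

open Pool.Agent.H9.UQL Finset
open scoped Classical

lemma isBlock_mono {Y : Type} [Fintype Y] [MetricSpace Y] {R0 c S S' : ℝ} {T : Matrix Y Y ℝ}
    {b : Y → ℝ} (h : IsBlock R0 c S' T b) (hS : S ≤ S') : IsBlock R0 c S T b := by
  obtain ⟨h1, h2, h3, h4, h5, h6, h7⟩ := h
  exact ⟨h1, h2, h3, h4, h5, h6, fun φ hφ => h7 φ fun z w hz hw => (hφ z w hz hw).trans hS⟩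

theorem block (h1 : BL1Stmt) (h2 : BL2Stmt) (h3 : BL3Stmt) : BlockStmt := by
  intro X _ hBG hne
  obtain ⟨R, ε, hR, hε, hY⟩ := hne
  obtain ⟨θ, hθ, hθ1, hθ2⟩ := h1 X hBG R ε hR hε
  refine ⟨R, (θ / 4) ^ 2 / 4, hR, by positivity, by nlinarith, ?_⟩
  intro S F
  have hZ : ∃ Z : Finset X, Disjoint Z F ∧ ¬ P1 R (max S 0) θ Z := by
    by_contra hcon
    push Not at hcon
    exact hY (hθ2 (max S 0) F hcon)
  obtain ⟨Z, hZF, hZP⟩ := hZ
  obtain ⟨Y, hYZ, hYne, w, m, hw, hs, hsupp, hm, hE⟩ :=
    h2 X R (max S 0) θ (le_max_right _ _) hθ Z hZP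
  have hYne' : Nonempty Y := hYne.to_subtype
  obtain ⟨T, b, hTb⟩ := h3 Y R (max S 0) (θ / 4) (fun x y => w x y) (fun x => m x) hR.le
    (le_max_right _ _) (by positivity) (by linarith) (fun x y => hw x y) (fun x y => hs x y)
    (fun x y h => hsupp x y h)
    (fun x => by
      have := hm x x.2
      rw [← Finset.sum_coe_sort Y (fun y => w x y)] at this
      exact this)
    (fun E hEne hEd => by
      have h4 := hE (E.map (Function.Embedding.subtype _))
        (by
          intro x hx
          rw [mem_map] at hx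
          obtain ⟨y, _, rfl⟩ := hx
          exact y.2)
        (by rwa [map_nonempty])
        (by
          intro x hx y hy
          rw [mem_map] at hx hy
          obtain ⟨x', hx', rfl⟩ := hx
          obtain ⟨y', hy', rfl⟩ := hy
          exact hEd x' hx' y' hy')
      rw [sum_map, sum_map] at h4
      refine lt_of_lt_of_le h4 (le_of_eq ?_)
      refine sum_congr rfl fun x _ => ?_
      have h5 : Y \ E.map (Function.Embedding.subtype _) =
          (univ \ E).map (Function.Embedding.subtype _) := by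
        ext y
        simp only [mem_sdiff, mem_map, Function.Embedding.subtype_apply, mem_univ, true_and]
        constructor
        · rintro ⟨hy, hy'⟩
          exact ⟨⟨y, hy⟩, fun h => hy' ⟨_, h, rfl⟩, rfl⟩
        · rintro ⟨z, hz, rfl⟩
          refine ⟨z.2, ?_⟩
          rintro ⟨z', hz', hzz⟩
          exact hz (Subtype.ext hzz ▸ hz')
      rw [h5, sum_map]
      refine Finset.sum_congr ?_ fun _ _ => rfl
      ext z
      simp only [mem_sdiff, mem_univ, true_and])
  exact ⟨Y, T, b, Finset.disjoint_of_subset_left hYZ hZF, isBlock_mono hTb (le_max_left _ _)⟩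

end Pool.Agent.H94.UQL
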